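import Pool.Agent.H.MP_df5726_co.B

namespace Pool.Agent.Results.MP_df5726_co.No
open Pool.Agent.H.MP_df5726_co Finset

/-- a nonempty finite edge-connected set of cells -/
def Polyomino (P : Finset C) : Prop := P.Nonempty ∧ ∀ a ∈ P, ∀ b ∈ P,
  Relation.ReflTransGen (fun x y => x ∈ P ∧ y ∈ P ∧ Adj x y) a b

/-- image under a signed permutation of the coordinates followed by a translation -/
def Copy (P Q : Finset C) : Prop := ∃ (w : Bool) (e f : ℤˣ) (v : C),
  Q = P.image fun z => (if w then ((e : ℤ) * z.2, (f : ℤ) * z.1) else ((e : ℤ) * z.1, (f : ℤ) * z.2)) + v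

def Tiling (P : Finset C) (T : Set (Finset C)) : Prop :=
  (∀ Q ∈ T, Copy P Q) ∧ ∀ z, ∃! Q, Q ∈ T ∧ z ∈ Q

/-- the translates of `F` by the vectors `(n a, m b)` partition the cells -/
def Fund (m n : ℕ) (F : Finset C) : Prop := ∀ z : C, ∃! l : ℤ × ℤ, z - (n * l.1, m * l.2) ∈ F

def blow (τ : Finset C) : Finset C := (τ ×ˢ DL.toFinset).image fun p => pm p.1 + p.2

lemma mem_blow {τ ζ d} (h : d ∈ DL) : pm ζ + d ∈ blow τ ↔ ζ ∈ τ := by
  simp only [blow, mem_image, mem_product, List.mem_toFinset]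
  exact ⟨fun ⟨p, ⟨a, b⟩, c⟩ => (unD b h c).1 ▸ a, fun a => ⟨(ζ, d), ⟨a, h⟩, rfl⟩⟩

lemma blow_rot (τ : Finset C) : (blow τ).image rot = blow (τ.image rot) := by
  have e : ∀ ζ d, rot (pm ζ + d) = pm (rot ζ) + rot d := fun ζ d => by ext <;> simp [rot, pm] <;> ring
  ext z
  obtain ⟨w, rfl⟩ : ∃ w, z = rot w := ⟨(z.2, -z.1), by simp [rot]⟩
  obtain ⟨ζ, d, h, rfl⟩ := exD w
  rw [rot_inj.mem_finset_image, e, mem_blow h, mem_blow (d2.2 d h).1, rot_inj.mem_finset_image]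

lemma blow_add (τ : Finset C) (v) : (blow τ).image (· + pm v) = blow (τ.image (· + v)) := by
  ext z
  obtain ⟨ζ, d, h, e⟩ := exD (z - pm v)
  rw [sub_eq_iff_eq_add.1 e, (add_left_injective _).mem_finset_image, add_right_comm, ← pm_add,
    mem_blow h, mem_blow h, (add_left_injective _).mem_finset_image]

lemma copy (o : ℕ) (P : Finset C) (v) : Copy P ((P.image rot^[o]).image (· + v)) := by
  induction o generalizing v with
  | zero => exact ⟨false, 1, 1, v, by rw [image_image]; congr 1; funext z; simp⟩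
  | succ o ih =>
    obtain ⟨w, e, f, u, h⟩ := ih 0
    refine ⟨!w, -f, e, rot u + v, ?_⟩
    simp only [add_zero, image_id'] at h
    rw [Function.iterate_succ', ← image_image, h, image_image, image_image]
    congr 1; funext z; cases w <;> ext <;> simp [rot] <;> ring

lemma align {F : Finset C} {m n : ℕ} (fd : Fund m n (blow F)) : 65 ∣ n ∧ 65 ∣ m := by
  let al := fun ζ => ∃ l η : C, ((n * l.1, m * l.2) : C) = pm η ∧ ζ - η ∈ F
  have st : ∀ o < 4, ∀ ζ, al ζ → al (ζ + rot^[o] (1, 0)) := by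
    rintro o ho ζ ⟨l, η, a, b⟩
    obtain ⟨t1, t2, t3⟩ := d3 o ho
    obtain ⟨l', c, -⟩ := fd (pm (ζ + rot^[o] (1, 0)) + rot^[o] (-4, -1))
    by_cases q : l' = l
    · exact ⟨l, η, a, by rwa [q, a, ← sub_add_eq_add_sub, ← pm_sub, mem_blow t1] at c⟩
    obtain ⟨ξ, d, h, e⟩ := exD (pm (ζ + rot^[o] (1, 0)) + rot^[o] (-4, -1) - (n * l'.1, m * l'.2))
    rw [e, mem_blow h] at c
    obtain rfl := t3 d h fun u hu g => q ((fd (pm ζ + (pm (rot^[o] (1, 0)) + rot^[o] (-4, -1) +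
      rot^[o] u))).unique (by
        rw [← add_assoc, ← add_assoc, ← pm_add, ← sub_add_eq_add_sub, e, add_assoc, mem_blow g]; exact c)
      (by rwa [a, ← sub_add_eq_add_sub, ← pm_sub, mem_blow (t2 u hu)]))
    exact ⟨l', ζ + rot^[o] (1, 0) - ξ, by rw [pm_sub]; linear_combination -e, by simpa using c⟩
  obtain ⟨l, h, -⟩ := fd 0
  obtain ⟨ζ, d, hd, e⟩ := exD (0 - (n * l.1, m * l.2))
  rw [e, mem_blow hd] at h
  have all : ∀ x y : ℤ, al (ζ + (x, y)) := fun x y => by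
    induction x using Int.induction_on with
    | zero =>
      induction y using Int.induction_on with
      | zero => exact ⟨0, 0, by simp [pm], by simpa [Prod.mk_zero_zero] using h⟩
      | succ y ih => simpa [rot, add_assoc] using st 1 (by omega) _ ih
      | pred y ih => simpa [rot, add_assoc, sub_eq_add_neg] using st 3 (by omega) _ ih
    | succ x ih => simpa [rot, add_assoc] using st 0 (by omega) _ ih
    | pred x ih => simpa [rot, add_assoc, sub_eq_add_neg] using st 2 (by omega) _ ih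
  have k : ∀ l : C, ∃ η, ((n * l.1, m * l.2) : C) = pm η := fun l => by
    obtain ⟨ξ, d, hd, e⟩ := exD (pm ζ + (n * l.1, m * l.2))
    obtain ⟨l', η, a, b⟩ := all (ξ - ζ).1 (ξ - ζ).2
    refine ⟨η, (fd (pm ζ + (n * l.1, m * l.2))).unique (y₁ := l') (y₂ := l) ?_ ?_ ▸ a⟩
    · rw [e, a, ← sub_add_eq_add_sub, ← pm_sub, mem_blow hd]; rwa [Prod.mk.eta, add_sub_cancel] at b
    · rwa [add_sub_cancel_right, ← add_zero (pm ζ), mem_blow d2.1]
  obtain ⟨a, h1⟩ := k (1, 0)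
  obtain ⟨b, h2⟩ := k (0, 1)
  simp only [pm, Prod.mk.injEq] at h1 h2
  omega

theorem result : ∃ P T, Polyomino P ∧ Tiling P T ∧ ∀ m n, 1 ≤ m → 1 ≤ n →
    ∀ S : Finset (Finset C), ↑S ⊆ T → ¬Fund m n (S.biUnion id) := by
  obtain ⟨s, t, h⟩ := exSt
  have e : ∀ z, z ∈ blow QL.toFinset ↔ z ∈ PL := fun z => by
    simp [blow, PL, QL, or_comm, or_left_comm, show pm (0, 0) = 0 from rfl, or_and_right, exists_or, or_assoc]
    exact or_congr_left ⟨fun ⟨_, _, a, b⟩ => b ▸ a, fun a => ⟨_, _, a, rfl⟩⟩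
  refine ⟨blow QL.toFinset, blow '' TT s t, ⟨⟨0, (e _).2 (by decide)⟩, fun a ha b hb => ?_⟩,
    ⟨?_, fun z => ?_⟩, fun m n hm hn S hS fd => ?_⟩
  · obtain ⟨r, hr⟩ := conn _ p1
    simp only [e] at *
    exact (hr a ha).trans (Relation.ReflTransGen.mono (by exact fun x y h => ⟨h.2.1, h.1, by
      simpa only [Adj, abs_sub_comm] using h.2.2⟩) _ _ (hr b hb).swap)
  · rintro _ ⟨_, ⟨σ, c, -, rfl⟩, rfl⟩
    have : ∀ o, (blow QL.toFinset).image rot^[o] = blow (QL.toFinset.image rot^[o]) := fun o => by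
      induction o with
      | zero => simp
      | succ o ih => rw [Function.iterate_succ', ← image_image, ← image_image, ih, blow_rot]
    have k := copy (c / 100) (blow QL.toFinset) (pm (sm σ + (((c / 10 % 10 : ℕ) : ℤ), ((c % 10 : ℕ) : ℤ))))
    rw [this, blow_add, image_image] at k
    refine cast (congrArg _ (congrArg _ (image_congr fun q _ => ?_))) k
    simp [cel, add_left_comm]
  · obtain ⟨ζ, d, hd, rfl⟩ := exD z
    obtain ⟨τ, ⟨a, b⟩, c⟩ := part h ζ
    refine ⟨_, ⟨⟨τ, a, rfl⟩, (mem_blow hd).2 b⟩, ?_⟩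
    rintro _ ⟨⟨τ', a', rfl⟩, b'⟩
    rw [c τ' ⟨a', (mem_blow hd).1 b'⟩]
  obtain ⟨S, hS', rfl⟩ := subset_set_image_iff.1 hS
  have : (S.image blow).biUnion id = blow (S.biUnion id) := by
    ext z
    obtain ⟨ζ, d, hd, rfl⟩ := exD z
    simp [mem_blow hd]
  rw [this] at fd
  obtain ⟨⟨n, rfl⟩, m, rfl⟩ := align fd
  refine mac h hS' (n := n) (m := m) (by omega) (by omega) fun ζ => ?_
  refine (existsUnique_congr fun l => ?_).1 (fd (pm ζ))
  rw [← mem_blow (τ := S.biUnion id) d2.1, pm_sub, add_zero]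
  rw [show pm (sm (n * l.1, m * l.2)) = (((65 * n : ℕ) : ℤ) * l.1, ((65 * m : ℕ) : ℤ) * l.2) by
    ext <;> simp [pm, sm] <;> ring]

end Pool.Agent.Results.MP_df5726_co.No
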